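import Pool.Agent.PRT.StmtsD

/-!
# PRT, row SEQ: `S` is nearly equivariant under `F`
-/

set_option autoImplicit false

namespace Pool.Agent.PRT.H88

open Set MeasureTheory Pool.Agent.PRT
open scoped ContDiff Nat

theorem norm_crL_le : ‖crL‖ ≤ 2 := by
  refine ContinuousLinearMap.opNorm_le_bound₂ _ (by norm_num) ?_
  intro x y
  rw [crL_apply, Real.norm_eq_abs]
  exact abs_cr_le x y

/-- a periodic function with bounded derivative oscillates by at most the bound -/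
theorem per_osc {ψ : E → ℝ} (hp : Per ψ) (hd : Differentiable ℝ ψ) {A : ℝ}
    (hA : ∀ z, ‖fderiv ℝ ψ z‖ ≤ A) (z : E) : |ψ z - ψ 0| ≤ A := by
  have hA0 : 0 ≤ A := (norm_nonneg _).trans (hA 0)
  have h1 : ∀ y : E, |ψ y - ψ 0| ≤ A * ‖y‖ := by
    intro y
    have := (convex_univ : Convex ℝ (Set.univ : Set E)).norm_image_sub_le_of_norm_fderiv_le
      (f := ψ) (C := A) (x := 0) (y := y) (fun x _ => hd.differentiableAt) (fun x _ => hA x)
      (Set.mem_univ _) (Set.mem_univ _)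
    simpa [Real.norm_eq_abs] using this
  have e : ψ z = ψ (z + iv (-⌊z.1⌋) (-⌊z.2⌋)) := (hp _ _ z).symm
  rw [e]
  refine (h1 _).trans ?_
  have hn : ‖z + iv (-⌊z.1⌋) (-⌊z.2⌋)‖ ≤ 1 := by
    rw [Prod.norm_def]
    refine max_le ?_ ?_
    · have a1 := Int.floor_le z.1
      have a2 := Int.lt_floor_add_one z.1
      simp only [iv, Prod.fst_add, Int.cast_neg, Real.norm_eq_abs]
      rw [abs_le]
      constructor <;> linarith
    · have a1 := Int.floor_le z.2
      have a2 := Int.lt_floor_add_one z.2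
      simp only [iv, Prod.snd_add, Int.cast_neg, Real.norm_eq_abs]
      rw [abs_le]
      constructor <;> linarith
  calc A * ‖z + iv (-⌊z.1⌋) (-⌊z.2⌋)‖ ≤ A * 1 := by gcongr
    _ = A := mul_one A

theorem contDiff_iter {F : E → E} (hF : ContDiff ℝ ∞ F) (m : ℕ) : ContDiff ℝ ∞ (F^[m]) := by
  induction m with
  | zero => simpa using contDiff_id
  | succ m ih =>
    rw [Function.iterate_succ]
    exact ih.comp hF

/-- the mean of `f` is the drift -/
theorem mean_drift {F : E → E} {w v : E} {C A B : ℝ} {S f : E → ℝ}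
    (hdev : ∀ (n : ℕ) (z : E), ‖F^[n] z - z - (n : ℝ) • w‖ ≤ C)
    (hf : ∀ z, f z = S (F z) - S z) (hfA : ∀ z, |f z - f 0| ≤ A)
    (hS : ∀ z, |(S z - cr v z) - (S 0 - cr v 0)| ≤ B) : |f 0 - cr v w| ≤ A := by
  have h1 : ∀ m : ℕ, |(S (F^[m] 0) - S 0) - m * f 0| ≤ m * A := by
    intro m
    induction m with
    | zero => simp
    | succ m ih =>
      have e : (S (F^[m + 1] 0) - S 0) - ((m + 1 : ℕ) : ℝ) * f 0 =
          ((S (F^[m] 0) - S 0) - m * f 0) + (f (F^[m] 0) - f 0) := by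
        rw [Function.iterate_succ_apply', hf (F^[m] 0)]
        push_cast
        ring
      rw [e]
      refine (abs_add_le _ _).trans ?_
      have := hfA (F^[m] 0)
      push_cast
      linarith
  have h2 : ∀ m : ℕ, |(S (F^[m] 0) - S 0) - m * cr v w| ≤ B + 2 * ‖v‖ * C := by
    intro m
    have e : (S (F^[m] 0) - S 0) - m * cr v w =
        ((S (F^[m] 0) - cr v (F^[m] 0)) - (S 0 - cr v 0)) +
          cr v (F^[m] 0 - 0 - (m : ℝ) • w) := by
      have e0 : cr v (F^[m] 0 - 0 - (m : ℝ) • w) = cr v (F^[m] 0) - cr v 0 - m * cr v w := by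
        unfold cr
        simp
        ring
      rw [e0]
      ring
    rw [e]
    refine (abs_add_le _ _).trans ?_
    have a1 := hS (F^[m] 0)
    have a2 := abs_cr_le v (F^[m] 0 - 0 - (m : ℝ) • w)
    have a3 : 2 * ‖v‖ * ‖F^[m] 0 - 0 - (m : ℝ) • w‖ ≤ 2 * ‖v‖ * C := by
      have := hdev m 0
      gcongr
    linarith
  by_contra hc
  push Not at hc
  obtain ⟨m, hm⟩ := exists_nat_gt ((B + 2 * ‖v‖ * C) / (|f 0 - cr v w| - A))
  have hpos : 0 < |f 0 - cr v w| - A := by linarith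
  rw [div_lt_iff₀ hpos] at hm
  have h3 : (m : ℝ) * |f 0 - cr v w| ≤ m * A + (B + 2 * ‖v‖ * C) := by
    have e : (m : ℝ) * |f 0 - cr v w| =
        |((S (F^[m] 0) - S 0) - m * cr v w) - ((S (F^[m] 0) - S 0) - m * f 0)| := by
      rw [show ((S (F^[m] 0) - S 0) - m * cr v w) - ((S (F^[m] 0) - S 0) - m * f 0) =
        (m : ℝ) * (f 0 - cr v w) by ring, abs_mul, Nat.abs_cast]
    rw [e]
    have a1 := h1 m
    have a2 := h2 m
    have a3 := abs_sub ((S (F^[m] 0) - S 0) - m * cr v w) ((S (F^[m] 0) - S 0) - m * f 0)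
    linarith
  nlinarith

theorem seq_aux {k c1 c0 N : ℕ} {l ε : ℝ} (hl1 : 1 ≤ l) (hε : 0 ≤ ε)
    (hl : 2 * (2 ^ k * k ! + 1 + 2 ^ k * (2 * (c1 * 2 ^ c1))) ≤ l) (hlN : ε * l ^ (2 * N) = 1)
    (hN : 10 * k + 200 ≤ N) :
    2 * (2 ^ k * (k ! * (ε ^ 2 * l ^ c0) * l ^ k) * l + ε ^ 2 * l ^ c0 +
      2 ^ k * (2 * (c1 * l * (ε * l ^ (k + 8)) ^ 2 * (1 + ε * l ^ (k + 8)) ^ c1)) * l) ≤
      ε ^ 2 * l ^ (c0 + 2 * k + 20) := by
  have hD : ε * l ^ (k + 8) ≤ 1 := by
    rw [← hlN]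
    have : l ^ (k + 8) ≤ l ^ (2 * N) := pow_le_pow_right₀ hl1 (by omega)
    gcongr
  have h1 : (1 + ε * l ^ (k + 8)) ^ c1 ≤ 2 ^ c1 := by
    have : 0 ≤ ε * l ^ (k + 8) := by positivity
    apply pow_le_pow_left₀ (by positivity)
    linarith
  have hM : ∀ j, j ≤ c0 + 2 * k + 19 → l ^ j ≤ l ^ (c0 + 2 * k + 19) := fun j hj =>
    pow_le_pow_right₀ hl1 hj
  have t1 : 2 ^ k * (k ! * (ε ^ 2 * l ^ c0) * l ^ k) * l ≤
      (2 ^ k * k !) * (ε ^ 2 * l ^ (c0 + 2 * k + 19)) := by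
    have e : 2 ^ k * (k ! * (ε ^ 2 * l ^ c0) * l ^ k) * l =
      (2 ^ k * k !) * (ε ^ 2 * l ^ (c0 + k + 1)) := by ring
    rw [e]
    have := hM (c0 + k + 1) (by omega)
    gcongr
  have t2 : ε ^ 2 * l ^ c0 ≤ ε ^ 2 * l ^ (c0 + 2 * k + 19) := by
    have := hM c0 (by omega)
    gcongr
  have t3 : 2 ^ k * (2 * (c1 * l * (ε * l ^ (k + 8)) ^ 2 * (1 + ε * l ^ (k + 8)) ^ c1)) * l ≤
      (2 ^ k * (2 * (c1 * 2 ^ c1))) * (ε ^ 2 * l ^ (c0 + 2 * k + 19)) := by
    calc 2 ^ k * (2 * (c1 * l * (ε * l ^ (k + 8)) ^ 2 * (1 + ε * l ^ (k + 8)) ^ c1)) * l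
        ≤ 2 ^ k * (2 * (c1 * l * (ε * l ^ (k + 8)) ^ 2 * 2 ^ c1)) * l := by gcongr
      _ = (2 ^ k * (2 * (c1 * 2 ^ c1))) * (ε ^ 2 * l ^ (2 * k + 18)) := by ring
      _ ≤ _ := by
        have := hM (2 * k + 18) (by omega)
        gcongr
  have hX : 0 ≤ ε ^ 2 * l ^ (c0 + 2 * k + 19) := by positivity
  calc 2 * (2 ^ k * (k ! * (ε ^ 2 * l ^ c0) * l ^ k) * l + ε ^ 2 * l ^ c0 +
      2 ^ k * (2 * (c1 * l * (ε * l ^ (k + 8)) ^ 2 * (1 + ε * l ^ (k + 8)) ^ c1)) * l)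
      ≤ 2 * (2 ^ k * k ! + 1 + 2 ^ k * (2 * (c1 * 2 ^ c1))) *
          (ε ^ 2 * l ^ (c0 + 2 * k + 19)) := by nlinarith
    _ ≤ l * (ε ^ 2 * l ^ (c0 + 2 * k + 19)) := by gcongr
    _ = ε ^ 2 * l ^ (c0 + 2 * k + 20) := by ring

theorem seq (h1 : DfbStmt) (_h2 : GlfStmt) : SeqStmt := by
  intro k c0
  obtain ⟨c1, hc1⟩ := h1 k
  refine ⟨c0 + 2 * k + 20, 2 * (2 ^ k * k ! + 1 + 2 ^ k * (2 * (c1 * 2 ^ c1))), ?_⟩
  intro F w C q p l N R S hl hN hR hG hNr sS hSe hϑ
  set v : E := (q : ℝ) • w - p with hv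
  have hl1 : 1 ≤ l := hG.l1
  have hε : 0 ≤ ‖v‖ := norm_nonneg _
  have sF := hG.lf.sm
  have sg : ContDiff ℝ ∞ (fun z => F^[q] z - p) := (contDiff_iter sF q).sub contDiff_const
  have sφ : ContDiff ℝ ∞ (fun z => F^[q] z - p - z) := sg.sub contDiff_id
  have bF : Bm R l F := by
    have := hG.bd 1 hG.q1
    simpa using this
  have bφ : Bd k (‖v‖ * l ^ (k + 8)) (fun z => F^[q] z - p - z) := by
    intro i hi z
    refine (hNr.bd i (by omega) z).trans ?_
    have : l ^ (i + 8) ≤ l ^ (k + 8) := pow_le_pow_right₀ hl1 (by omega)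
    gcongr
  -- the second difference
  have b2 := hc1 E F (fun z => F^[q] z - p - z) l (‖v‖ * l ^ (k + 8)) sF sφ (by linarith)
    (bF.mono hR le_rfl) bφ
  obtain ⟨pa, pb, hp⟩ := hG.pz
  have hFp : ∀ x : E, F (x - p) = F x - p := by
    intro x
    have := hG.lf.eqv pa pb (x - p)
    rw [← hp, sub_add_cancel] at this
    rw [this, add_sub_cancel_right]
  have hr : ∀ z, F (z + (F^[q] z - p - z)) - F z - fderiv ℝ F z (F^[q] z - p - z) =
      (F^[q] (F z) - p - F z) - fderiv ℝ F z (F^[q] z - p - z) := by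
    intro z
    have e1 : z + (F^[q] z - p - z) = F^[q] z - p := by abel
    rw [e1, hFp, ← Function.iterate_succ_apply' F q z, Function.iterate_succ_apply F q z]
  -- the derivative of f
  have dF : ∀ z, DifferentiableAt ℝ F z := fun z => (sF.differentiable (by simp)).differentiableAt
  have dS : ∀ z, DifferentiableAt ℝ S z := fun z => (sS.differentiable (by simp)).differentiableAt
  have sϑ : ContDiff ℝ ∞ (fun z => fderiv ℝ S z - crL (F^[q] z - p - z)) :=
    (sS.fderiv_right (by simp)).sub (crL.contDiff.comp sφ)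
  have s2 : ContDiff ℝ ∞
      (fun z => F (z + (F^[q] z - p - z)) - F z - fderiv ℝ F z (F^[q] z - p - z)) := by
    have a1 : ContDiff ℝ ∞ (fun z => F (z + (F^[q] z - p - z))) :=
      sF.comp (contDiff_id.add sφ)
    have a2 : ContDiff ℝ ∞ (fun z => fderiv ℝ F z (F^[q] z - p - z)) :=
      (sF.fderiv_right (by simp)).clm_apply sφ
    exact (a1.sub sF).sub a2
  have hfd : ∀ z, fderiv ℝ (fun z => S (F z) - S z - cr v w) z =
      (ContinuousLinearMap.compL ℝ E E ℝ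
        ((fun z => fderiv ℝ S z - crL (F^[q] z - p - z)) (F z)) (fderiv ℝ F z) -
          (fderiv ℝ S z - crL (F^[q] z - p - z))) +
        ContinuousLinearMap.compL ℝ E E ℝ
          (crL (F (z + (F^[q] z - p - z)) - F z - fderiv ℝ F z (F^[q] z - p - z)))
          (fderiv ℝ F z) := by
    intro z
    have e1 : fderiv ℝ (fun z => S (F z) - S z - cr v w) z =
        (fderiv ℝ S (F z)).comp (fderiv ℝ F z) - fderiv ℝ S z := by
      have a1 : DifferentiableAt ℝ (fun z => S (F z)) z := (dS (F z)).comp z (dF z)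
      rw [fderiv_sub_const, fderiv_fun_sub a1 (dS z)]
      congr 1
      exact fderiv_comp z (dS (F z)) (dF z)
    rw [e1, hr z]
    refine ContinuousLinearMap.ext fun u => ?_
    have e2 := cr_map (fderiv ℝ F z) (F^[q] z - p - z) u
    rw [hG.lf.det z, one_mul] at e2
    simp only [ContinuousLinearMap.compL_apply, add_apply,
      sub_apply, ContinuousLinearMap.comp_apply, crL_apply]
    have e3 : cr (F^[q] (F z) - p - F z - (fderiv ℝ F z) (F^[q] z - p - z)) ((fderiv ℝ F z) u) =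
        cr (F^[q] (F z) - p - F z) ((fderiv ℝ F z) u) - cr (F^[q] z - p - z) u := by
      rw [← e2]
      unfold cr
      simp only [Prod.fst_sub, Prod.snd_sub]
      ring
    rw [e3]
    ring
  -- the bound for the derivative
  have b3 : Bd k (k ! * (‖v‖ ^ 2 * l ^ c0) * l ^ k)
      (fun z => (fun z => fderiv ℝ S z - crL (F^[q] z - p - z)) (F z)) :=
    hϑ.comp (bF.mono (by omega) le_rfl) hl1 sϑ sF
  have bDF : Bd k l (fderiv ℝ F) := bm_succ.1 (bF.mono (by omega) le_rfl)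
  have sDF : ContDiff ℝ ∞ (fderiv ℝ F) := sF.fderiv_right (by simp)
  have b4 := Bd.bil (ContinuousLinearMap.compL ℝ E E ℝ) (ContinuousLinearMap.norm_compL_le ℝ E E ℝ)
    b3 bDF (sϑ.comp sF) sDF
  have b5 : Bd k (2 * (c1 * l * (‖v‖ * l ^ (k + 8)) ^ 2 * (1 + ‖v‖ * l ^ (k + 8)) ^ c1))
      (fun z => crL (F (z + (F^[q] z - p - z)) - F z - fderiv ℝ F z (F^[q] z - p - z))) := by
    refine (b2.clm s2 crL).mono le_rfl ?_
    have := b2.nonneg
    have := norm_crL_le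
    gcongr
  have b6 := Bd.bil (ContinuousLinearMap.compL ℝ E E ℝ) (ContinuousLinearMap.norm_compL_le ℝ E E ℝ)
    b5 bDF (crL.contDiff.comp s2) sDF
  have sc1 : ContDiff ℝ ∞ (fun z => ContinuousLinearMap.compL ℝ E E ℝ
        ((fun z => fderiv ℝ S z - crL (F^[q] z - p - z)) (F z)) (fderiv ℝ F z)) :=
    (sϑ.comp sF).clm_comp sDF
  have sc2 : ContDiff ℝ ∞ (fun z => ContinuousLinearMap.compL ℝ E E ℝ
          (crL (F (z + (F^[q] z - p - z)) - F z - fderiv ℝ F z (F^[q] z - p - z)))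
          (fderiv ℝ F z)) :=
    (crL.contDiff.comp s2).clm_comp sDF
  have b7 := (b4.sub hϑ sc1 sϑ).add b6 (sc1.sub sϑ) sc2
  have b8 : Bd k (2 ^ k * (k ! * (‖v‖ ^ 2 * l ^ c0) * l ^ k) * l + ‖v‖ ^ 2 * l ^ c0 +
      2 ^ k * (2 * (c1 * l * (‖v‖ * l ^ (k + 8)) ^ 2 * (1 + ‖v‖ * l ^ (k + 8)) ^ c1)) * l)
      (fderiv ℝ (fun z => S (F z) - S z - cr v w)) := by
    rw [show fderiv ℝ (fun z => S (F z) - S z - cr v w) = _ from funext hfd]
    exact b7
  set A : ℝ := 2 ^ k * (k ! * (‖v‖ ^ 2 * l ^ c0) * l ^ k) * l + ‖v‖ ^ 2 * l ^ c0 +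
      2 ^ k * (2 * (c1 * l * (‖v‖ * l ^ (k + 8)) ^ 2 * (1 + ‖v‖ * l ^ (k + 8)) ^ c1)) * l with hAdef
  have hA2 : 2 * A ≤ ‖v‖ ^ 2 * l ^ (c0 + 2 * k + 20) := seq_aux hl1 hε hl hG.lN hN
  have hA0 : 0 ≤ A := b8.nonneg
  -- oscillation of f
  have smf : ContDiff ℝ ∞ (fun z => S (F z) - S z - cr v w) :=
    ((sS.comp sF).sub sS).sub contDiff_const
  have pf : Per (fun z => S (F z) - S z - cr v w) := by
    intro a b z
    show S (F (z + iv a b)) - S (z + iv a b) - cr v w = S (F z) - S z - cr v w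
    rw [hG.lf.eqv a b z, hSe, hSe]
    ring
  have osc := per_osc pf (smf.differentiable (by simp)) b8.norm_le
  -- oscillation of S - cr v
  have pS : Per (fun z => S z - cr v z) := by
    intro a b z
    show S (z + iv a b) - cr v (z + iv a b) = S z - cr v z
    rw [hSe, cr_add_right]
    ring
  have dcr : ∀ z, HasFDerivAt (fun z => cr v z) (crL v) z := by
    intro z
    have := (crL v).hasFDerivAt (x := z)
    rwa [show (fun z => cr v z) = ⇑(crL v) from funext fun u => (crL_apply v u).symm]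
  have dSc : ∀ z, HasFDerivAt (fun z => S z - cr v z) (fderiv ℝ S z - crL v) z := fun z =>
    (dS z).hasFDerivAt.sub (dcr z)
  have oscS := per_osc pS (fun z => (dSc z).differentiableAt)
    (A := ‖v‖ ^ 2 * l ^ c0 + 2 * (‖v‖ * l ^ (k + 8)) + 2 * ‖v‖) (by
      intro z
      rw [(dSc z).fderiv]
      have a1 := hϑ.norm_le z
      have a2 := bφ.norm_le z
      have a3 : ‖crL (F^[q] z - p - z)‖ ≤ 2 * (‖v‖ * l ^ (k + 8)) := by
        refine (crL.le_opNorm _).trans ?_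
        have := norm_crL_le
        gcongr
      have a4 : ‖crL v‖ ≤ 2 * ‖v‖ := by
        refine (crL.le_opNorm _).trans ?_
        have := norm_crL_le
        gcongr
      have e : fderiv ℝ S z - crL v =
          (fderiv ℝ S z - crL (F^[q] z - p - z)) + crL (F^[q] z - p - z) - crL v := by abel
      rw [e]
      refine (norm_sub_le _ _).trans ?_
      refine add_le_add ((norm_add_le _ _).trans (add_le_add a1 a3)) a4)
  have hmean : |(S (F 0) - S 0) - cr v w| ≤ A := by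
    refine mean_drift (F := F) (w := w) (v := v) (C := C) (S := S)
      (f := fun z => S (F z) - S z) hG.lf.dev (fun z => rfl) ?_ oscS
    intro z
    have := osc z
    rw [sub_sub_sub_cancel_right] at this
    exact this
  have hsup : ∀ z, ‖S (F z) - S z - cr v w‖ ≤ 2 * A := by
    intro z
    rw [Real.norm_eq_abs]
    have a1 := osc z
    have e : S (F z) - S z - cr v w =
        (S (F z) - S z - cr v w - (S (F 0) - S 0 - cr v w)) + (S (F 0) - S 0 - cr v w) := by ring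
    rw [e]
    refine (abs_add_le _ _).trans ?_
    linarith
  refine bd_iff.2 ⟨fun z => (hsup z).trans hA2, ?_⟩
  refine (bm_succ.2 b8).mono (Nat.le_succ _) ?_
  linarith

end Pool.Agent.PRT.H88
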